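import Mathlib

/-!
# Kronecker substitution: a linear check modulo five on big natural numbers

`kv B L = ∑ a * 2 ^ (B * w)` over the list `L` of pairs `(w, a)`.  If this number is `5 * Q`, all
base `2 ^ B` digits of `Q` are less than `2 ^ (B - 3)` and `∑ a < 2 ^ B`, then
`∑ a • ψ w = 0` for every function `ψ` into an abelian group killed by `5`.
-/

set_option autoImplicit false

namespace Pool.Agent.Work.MP_d7201b_al.LN4

/-- the Kronecker value of a list of pairs (position, coefficient) -/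
def kv (B : ℕ) (L : List (ℕ × ℕ)) : ℕ := (L.map fun x => x.2 * 2 ^ (B * x.1)).sum

/-- the mask: digits `2 ^ (B - 3) - 1` in the first `n` places -/
def mask (B : ℕ) : ℕ → ℕ
  | 0 => 0
  | n + 1 => mask B n * 2 ^ B + (2 ^ (B - 3) - 1)

theorem mask_closed (B n : ℕ) :
    (2 ^ B - 1) * mask B n = (2 ^ (B - 3) - 1) * (2 ^ (B * n) - 1) := by
  induction n with
  | zero => simp [mask]
  | succ n ih =>
    rw [mask, mul_add, ← mul_assoc, ih]
    have h1 : 1 ≤ 2 ^ B := Nat.one_le_two_pow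
    have h2 : 1 ≤ 2 ^ (B * n) := Nat.one_le_two_pow
    have h3 : 1 ≤ 2 ^ (B * (n + 1)) := Nat.one_le_two_pow
    have h4 : 1 ≤ 2 ^ (B - 3) := Nat.one_le_two_pow
    zify [h1, h2, h3, h4]
    have e : (2 : ℤ) ^ (B * (n + 1)) = 2 ^ (B * n) * 2 ^ B := by rw [← pow_add, mul_add, mul_one]
    rw [e]
    ring

theorem mask_eq {B n : ℕ} (hB : 0 < B) :
    mask B n = (2 ^ (B - 3) - 1) * ((2 ^ (B * n) - 1) / (2 ^ B - 1)) := by
  have hp : 0 < 2 ^ B - 1 := by
    have : 2 ^ 1 ≤ 2 ^ B := Nat.pow_le_pow_right (by norm_num) hB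
    omega
  have hd : (2 ^ B - 1) ∣ (2 ^ (B * n) - 1) := by
    have := Nat.sub_dvd_pow_sub_pow (2 ^ B) 1 n
    rwa [one_pow, ← pow_mul] at this
  obtain ⟨c, hc⟩ := hd
  have h := mask_closed B n
  rw [hc, Nat.mul_div_cancel_left _ hp]
  rw [hc] at h
  have : (2 ^ B - 1) * mask B n = (2 ^ B - 1) * ((2 ^ (B - 3) - 1) * c) := by rw [h]; ring
  exact Nat.eq_of_mul_eq_mul_left hp this

variable {M : Type*} [AddCommGroup M]

/-- the value of the base `2 ^ B` digits -/
def dg (B : ℕ) : ℕ → (ℕ → M) → ℕ → M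
  | 0, _, _ => 0
  | n + 1, ψ, N => (N % 2 ^ B) • ψ 0 + dg B n (fun i => ψ (i + 1)) (N / 2 ^ B)

theorem dg_zero (B n : ℕ) (ψ : ℕ → M) : dg B n ψ 0 = 0 := by
  induction n generalizing ψ with
  | zero => rfl
  | succ n ih => simp [dg, ih]

theorem dg_sum (B n : ℕ) (ψ : ℕ → M) (f : ℕ → ℕ) (hf : ∀ i, f i < 2 ^ B) :
    dg B n ψ (∑ i ∈ Finset.range n, f i * 2 ^ (B * i)) = ∑ i ∈ Finset.range n, f i • ψ i := by
  induction n generalizing ψ f with
  | zero => rfl
  | succ n ih =>
    have hpos : 0 < 2 ^ B := by positivity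
    have e : ∑ i ∈ Finset.range (n + 1), f i * 2 ^ (B * i)
        = f 0 + 2 ^ B * ∑ i ∈ Finset.range n, f (i + 1) * 2 ^ (B * i) := by
      rw [Finset.sum_range_succ', Finset.mul_sum, mul_zero, pow_zero, mul_one, add_comm]
      congr 1
      refine Finset.sum_congr rfl fun i _ => ?_
      rw [mul_add, mul_one, pow_add]; ring
    rw [dg, e, Nat.add_mul_mod_self_left, Nat.mod_eq_of_lt (hf 0), Nat.add_mul_div_left _ _ hpos,
      Nat.div_eq_of_lt (hf 0), zero_add, ih _ _ (fun i => hf (i + 1)), Finset.sum_range_succ',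
      add_comm]

theorem dg_mask (h5 : ∀ m : M, 5 • m = 0) (B : ℕ) (hB : 3 ≤ B) (n' : ℕ) (ψ : ℕ → M) (n Q : ℕ)
    (hQ : Q &&& mask B n = Q) : dg B n' ψ (5 * Q) = 0 := by
  induction n' generalizing ψ n Q with
  | zero => rfl
  | succ n' ih =>
    cases n with
    | zero =>
      have : Q = 0 := by simpa [mask] using hQ.symm
      rw [this, mul_zero, dg_zero]
    | succ n =>
      have hm1 : mask B (n + 1) % 2 ^ B = 2 ^ (B - 3) - 1 := by
        rw [mask, mul_comm, Nat.mul_add_mod]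
        apply Nat.mod_eq_of_lt
        have : 2 ^ (B - 3) ≤ 2 ^ B := Nat.pow_le_pow_right (by norm_num) (by omega)
        have : 0 < 2 ^ B := by positivity
        omega
      have hm2 : mask B (n + 1) / 2 ^ B = mask B n := by
        rw [mask, mul_comm, Nat.mul_add_div (by positivity)]
        have : (2 ^ (B - 3) - 1) / 2 ^ B = 0 := by
          apply Nat.div_eq_of_lt
          have : 2 ^ (B - 3) ≤ 2 ^ B := Nat.pow_le_pow_right (by norm_num) (by omega)
          have : 0 < 2 ^ B := by positivity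
          omega
        rw [this, add_zero]
      have h1 : Q % 2 ^ B < 2 ^ (B - 3) := by
        have e : Q % 2 ^ B = (Q % 2 ^ B) &&& (2 ^ (B - 3) - 1) := by
          conv_lhs => rw [← hQ]
          rw [Nat.and_mod_two_pow, hm1]
        rw [e]
        have := Nat.and_le_right (n := Q % 2 ^ B) (m := 2 ^ (B - 3) - 1)
        have : 0 < 2 ^ (B - 3) := by positivity
        omega
      have h2 : (Q / 2 ^ B) &&& mask B n = Q / 2 ^ B := by
        conv_rhs => rw [← hQ]
        rw [Nat.and_div_two_pow, hm2]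
      have hlt : 5 * (Q % 2 ^ B) < 2 ^ B := by
        have : 2 ^ B = 2 ^ (B - 3) * 8 := by
          rw [show (8 : ℕ) = 2 ^ 3 by norm_num, ← pow_add]; congr 1; omega
        omega
      have e5 : 5 * Q = 5 * (Q % 2 ^ B) + 2 ^ B * (5 * (Q / 2 ^ B)) := by
        have := Nat.mod_add_div Q (2 ^ B)
        nlinarith
      rw [dg, e5, Nat.add_mul_mod_self_left, Nat.mod_eq_of_lt hlt,
        Nat.add_mul_div_left _ _ (by positivity), Nat.div_eq_of_lt hlt, zero_add, ih _ n _ h2,
        add_zero, mul_comm, mul_smul, h5, smul_zero]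

/-- the coefficient function of a list -/
def cf (L : List (ℕ × ℕ)) (i : ℕ) : ℕ := (L.map fun x => if x.1 = i then x.2 else 0).sum

theorem cf_le (L : List (ℕ × ℕ)) (i : ℕ) : cf L i ≤ kv 0 L := by
  induction L with
  | nil => simp [cf, kv]
  | cons x L ih =>
    simp only [cf, kv, List.map_cons, List.sum_cons] at ih ⊢
    refine add_le_add ?_ ih
    split_ifs <;> simp

theorem sum_cf {n : ℕ} (L : List (ℕ × ℕ)) (hL : ∀ x ∈ L, x.1 < n) (ψ : ℕ → M) :
    ∑ i ∈ Finset.range n, cf L i • ψ i = (L.map fun x => x.2 • ψ x.1).sum := by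
  induction L with
  | nil => simp [cf]
  | cons x L ih =>
    have h1 := ih (fun y hy => hL y (List.mem_cons_of_mem _ hy))
    have hx : x.1 < n := hL x (by simp)
    have e : ∀ i, cf (x :: L) i • ψ i = (if x.1 = i then x.2 • ψ i else 0) + cf L i • ψ i := by
      intro i
      simp only [cf, List.map_cons, List.sum_cons, add_smul]
      split_ifs <;> simp
    rw [Finset.sum_congr rfl fun i _ => e i, Finset.sum_add_distrib, h1, List.map_cons,
      List.sum_cons, Finset.sum_ite_eq, if_pos (Finset.mem_range.2 hx)]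

theorem kv_cf {n : ℕ} (B : ℕ) (L : List (ℕ × ℕ)) (hL : ∀ x ∈ L, x.1 < n) :
    ∑ i ∈ Finset.range n, cf L i * 2 ^ (B * i) = kv B L := by
  induction L with
  | nil => simp [cf, kv]
  | cons x L ih =>
    have h1 := ih (fun y hy => hL y (List.mem_cons_of_mem _ hy))
    have hx : x.1 < n := hL x (by simp)
    have e : ∀ i, cf (x :: L) i * 2 ^ (B * i)
        = (if x.1 = i then x.2 * 2 ^ (B * i) else 0) + cf L i * 2 ^ (B * i) := by
      intro i
      simp only [cf, List.map_cons, List.sum_cons, add_mul]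
      split_ifs <;> simp
    rw [Finset.sum_congr rfl fun i _ => e i, Finset.sum_add_distrib, h1, Finset.sum_ite_eq,
      if_pos (Finset.mem_range.2 hx)]
    simp [kv]

/-- the Kronecker check is sound -/
theorem kron (h5 : ∀ m : M, 5 • m = 0) (B : ℕ) (hB : 3 ≤ B) (n : ℕ) (L : List (ℕ × ℕ)) (Q : ℕ)
    (h1 : kv B L = 5 * Q) (h2 : Q &&& mask B n = Q) (h3 : kv 0 L < 2 ^ B) (ψ : ℕ → M) :
    (L.map fun x => x.2 • ψ x.1).sum = 0 := by
  obtain ⟨n', hn'⟩ : ∃ n', ∀ x ∈ L, x.1 < n' := by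
    refine ⟨(L.map Prod.fst).sum + 1, fun x hx => ?_⟩
    have := List.single_le_sum (l := L.map Prod.fst) (fun _ _ => Nat.zero_le _) x.1
      (List.mem_map_of_mem hx)
    omega
  rw [← sum_cf L hn', ← dg_sum B n' ψ (cf L) (fun i => (cf_le L i).trans_lt h3), kv_cf B L hn', h1]
  exact dg_mask h5 B hB n' ψ n Q h2

end Pool.Agent.Work.MP_d7201b_al.LN4
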