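import Mathlib
import Pool.Agent.Work.MP_d7201b_al_helper4.Kron

/-!
# Words as codes, and the checker

A word in two letters is coded by the number whose binary digits are `1` followed by the letters
(`1` for `p`, `0` for `q`).  A polynomial over `ZMod 5` is a list of numbers
`8 * code + coefficient`.
-/

set_option autoImplicit false

namespace Pool.Agent.Work.MP_d7201b_al.LN4

variable {R : Type*} [Ring R]

/-- the value of a word code -/
def wv (p q : R) (n : ℕ) : R :=
  if n ≤ 1 then 1 else wv p q (n / 2) * (if n % 2 = 1 then p else q)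
termination_by n
decreasing_by omega

theorem wv_one (p q : R) : wv p q 1 = 1 := by rw [wv]; simp

theorem wv_zero (p q : R) : wv p q 0 = 1 := by rw [wv]; simp

theorem wv_even (p q : R) {n : ℕ} (hn : 1 ≤ n) : wv p q (2 * n) = wv p q n * q := by
  rw [wv, if_neg (by omega)]
  have h1 : 2 * n / 2 = n := by omega
  have h2 : ¬ (2 * n % 2 = 1) := by omega
  rw [h1, if_neg h2]

theorem wv_odd (p q : R) {n : ℕ} (hn : 1 ≤ n) : wv p q (2 * n + 1) = wv p q n * p := by
  rw [wv, if_neg (by omega)]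
  have h1 : (2 * n + 1) / 2 = n := by omega
  have h2 : (2 * n + 1) % 2 = 1 := by omega
  rw [h1, if_pos h2]

/-- concatenation of words -/
theorem wv_cat (p q : R) {n k m : ℕ} (hn : 1 ≤ n) (hm : m < 2 ^ k) :
    wv p q (n * 2 ^ k + m) = wv p q n * wv p q (2 ^ k + m) := by
  induction k generalizing m with
  | zero =>
    have : m = 0 := by simpa using hm
    subst this
    simp [wv_one]
  | succ k ih =>
    have hm2 : m / 2 < 2 ^ k := by
      rw [pow_succ] at hm; omega
    have hn' : 1 ≤ n * 2 ^ k + m / 2 := by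
      have : 0 < n * 2 ^ k := Nat.mul_pos hn (by positivity)
      omega
    have hk' : 1 ≤ 2 ^ k + m / 2 := by
      have : 1 ≤ 2 ^ k := Nat.one_le_two_pow
      omega
    rcases Nat.mod_two_eq_zero_or_one m with h | h
    · have e1 : n * 2 ^ (k + 1) + m = 2 * (n * 2 ^ k + m / 2) := by
        rw [pow_succ]; have := Nat.div_add_mod m 2; nlinarith
      have e2 : 2 ^ (k + 1) + m = 2 * (2 ^ k + m / 2) := by
        rw [pow_succ]; have := Nat.div_add_mod m 2; omega
      rw [e1, e2, wv_even p q hn', wv_even p q hk', ih hm2, mul_assoc]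
    · have e1 : n * 2 ^ (k + 1) + m = 2 * (n * 2 ^ k + m / 2) + 1 := by
        rw [pow_succ]; have := Nat.div_add_mod m 2; nlinarith
      have e2 : 2 ^ (k + 1) + m = 2 * (2 ^ k + m / 2) + 1 := by
        rw [pow_succ]; have := Nat.div_add_mod m 2; omega
      rw [e1, e2, wv_odd p q hn', wv_odd p q hk', ih hm2, mul_assoc]

/-- the code of `u τ v`, where `U1 = code u - 1` and `Vf = code v` -/
def ucode (U1 Vf τ : ℕ) : ℕ :=
  (U1 * 2 ^ Nat.log2 τ + τ) * 2 ^ Nat.log2 Vf + (Vf - 2 ^ Nat.log2 Vf)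

theorem wv_ucode (p q : R) (U1 Vf τ : ℕ) (hτ : 1 ≤ τ) :
    wv p q (ucode U1 Vf τ) = wv p q (U1 + 1) * wv p q τ * wv p q Vf := by
  unfold ucode
  have h1 : 2 ^ Nat.log2 τ ≤ τ := Nat.log2_self_le (by omega)
  have h2 : τ < 2 ^ (Nat.log2 τ + 1) := Nat.lt_log2_self
  have h3 : 1 ≤ U1 * 2 ^ Nat.log2 τ + τ := by omega
  have h4 : Vf < 2 ^ (Nat.log2 Vf + 1) := Nat.lt_log2_self
  rw [wv_cat p q h3 (by rw [pow_succ] at h4; have : 0 < 2 ^ Nat.log2 Vf := by positivity
                        omega)]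
  have e1 : U1 * 2 ^ Nat.log2 τ + τ = (U1 + 1) * 2 ^ Nat.log2 τ + (τ - 2 ^ Nat.log2 τ) := by
    rw [add_mul, one_mul]; omega
  rw [e1, wv_cat p q (by omega) (by rw [pow_succ] at h2; omega), Nat.add_sub_cancel' h1]
  congr 1
  rcases Nat.eq_zero_or_pos Vf with rfl | hV
  · simp [wv_zero, wv_one]
  · rw [Nat.add_sub_cancel' (Nat.log2_self_le (by omega))]

/-- the value of a polynomial -/
def ev (p q : R) (l : List ℕ) : R := (l.map fun t => (t % 8) • wv p q (t / 8)).sum

/-- all codes are positive -/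
def okc (l : List ℕ) : Prop := ∀ t ∈ l, 8 ≤ t

/-! ### the functions evaluated in the kernel -/

/-- the Kronecker value of `u G`, stretched: `s = B * 2 ^ |v|` -/
def sp (s U1 : ℕ) : List ℕ → ℕ
  | [] => 0
  | t :: l => Nat.add (Nat.shiftLeft (Nat.land t 7) (Nat.mul (Nat.add
      (Nat.shiftLeft U1 (Nat.log2 (Nat.shiftRight t 3))) (Nat.shiftRight t 3)) s)) (sp s U1 l)

/-- one certificate term `n = c + 8 * (code v + 2 ^ 14 * (code u - 1))` -/
def s1 (B : ℕ) (G : List ℕ) (n : ℕ) : ℕ :=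
  Nat.mul (Nat.land n 7) (Nat.shiftLeft
    (sp (Nat.shiftLeft B (Nat.log2 (Nat.land (Nat.shiftRight n 3) 16383))) (Nat.shiftRight n 17) G)
    (Nat.mul B (Nat.sub (Nat.land (Nat.shiftRight n 3) 16383)
      (Nat.shiftLeft 1 (Nat.log2 (Nat.land (Nat.shiftRight n 3) 16383))))))

/-- several terms with the same `G` -/
def s2 (B : ℕ) (G : List ℕ) : List ℕ → ℕ
  | [] => 0
  | n :: l => Nat.add (s1 B G n) (s2 B G l)

/-- the whole certificate -/
def s3 (B : ℕ) (E : ℕ → List ℕ) : List (ℕ × List ℕ) → ℕ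
  | [] => 0
  | g :: l => Nat.add (s2 B (E g.1) g.2) (s3 B E l)

/-- all references are to earlier elements -/
def below (k : ℕ) : List (ℕ × List ℕ) → Bool
  | [] => true
  | g :: l => (Nat.blt g.1 k).and (below k l)

/-- positivity of the codes -/
def pos : List ℕ → Bool
  | [] => true
  | t :: l => (Nat.ble 8 t).and (pos l)

/-- the final comparison -/
def fin (B Mk N T : ℕ) : Bool :=
  ((Nat.beq (Nat.mul (Nat.div N 5) 5) N).and (Nat.beq (Nat.land (Nat.div N 5) Mk) (Nat.div N 5))).and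
    (Nat.blt T (Nat.shiftLeft 1 B))

/-- the sum that must vanish: certificate + 4 * target + extra -/
def tot (B : ℕ) (E : ℕ → List ℕ) (k : ℕ) (X : List ℕ) (l : List (ℕ × List ℕ)) : ℕ :=
  Nat.add (s3 B E l) (Nat.add (s1 B (E k) 12) (s1 B X 9))

/-- the check of one element -/
def chk (B Mk : ℕ) (E : ℕ → List ℕ) (k : ℕ) (X : List ℕ) (l : List (ℕ × List ℕ)) : Bool :=
  ((below k l).and ((pos (E k)).and (pos X))).and (fin B Mk (tot B E k X l) (tot 0 E k X l))

/-! ### soundness -/

/-- the terms of `c u G v` -/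
def tm (G : List ℕ) (n : ℕ) : List (ℕ × ℕ) :=
  G.map fun t => (ucode (n / 2 ^ 17) (n / 8 % 2 ^ 14) (t / 8), n % 8 * (t % 8))

def tms (E : ℕ → List ℕ) : List (ℕ × List ℕ) → List (ℕ × ℕ)
  | [] => []
  | g :: l => g.2.flatMap (tm (E g.1)) ++ tms E l

theorem kv_nil (B : ℕ) : kv B [] = 0 := rfl

theorem kv_append (B : ℕ) (L L' : List (ℕ × ℕ)) : kv B (L ++ L') = kv B L + kv B L' := by
  simp [kv]

theorem sp_eq (B U1 lv : ℕ) (G : List ℕ) :
    sp (B * 2 ^ lv) U1 G
      = (G.map fun t => t % 8 * 2 ^ (B * ((U1 * 2 ^ Nat.log2 (t / 8) + t / 8) * 2 ^ lv))).sum := by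
  induction G with
  | nil => rfl
  | cons t l ih =>
    rw [sp, ih, List.map_cons, List.sum_cons]
    have h7 : Nat.land t 7 = t % 8 := Nat.and_two_pow_sub_one_eq_mod t 3
    have h3 : Nat.shiftRight t 3 = t / 8 := Nat.shiftRight_eq_div_pow t 3
    have h4 : ∀ a b : ℕ, Nat.shiftLeft a b = a * 2 ^ b := fun a b => Nat.shiftLeft_eq a b
    simp only [h7, h3, h4, Nat.add_eq, Nat.mul_eq]
    congr 2
    ring_nf

theorem s1_eq (B : ℕ) (G : List ℕ) (n : ℕ) : s1 B G n = kv B (tm G n) := by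
  have h7 : Nat.land n 7 = n % 8 := Nat.and_two_pow_sub_one_eq_mod n 3
  have h3 : Nat.shiftRight n 3 = n / 8 := Nat.shiftRight_eq_div_pow n 3
  have h17 : Nat.shiftRight n 17 = n / 2 ^ 17 := Nat.shiftRight_eq_div_pow n 17
  have h14 : ∀ m : ℕ, Nat.land m 16383 = m % 2 ^ 14 := fun m =>
    Nat.and_two_pow_sub_one_eq_mod m 14
  have h4 : ∀ a b : ℕ, Nat.shiftLeft a b = a * 2 ^ b := fun a b => Nat.shiftLeft_eq a b
  unfold s1
  rw [h7, h3, h17, h14, h4, h4, h4, sp_eq, one_mul, Nat.mul_eq, Nat.mul_eq, Nat.sub_eq]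
  unfold kv tm
  rw [List.map_map]
  generalize n / 2 ^ 17 = U1
  generalize n / 8 % 2 ^ 14 = Vf
  generalize n % 8 = c
  induction G with
  | nil => simp
  | cons t l ih =>
    simp only [List.map_cons, List.sum_cons, add_mul, mul_add] at ih ⊢
    rw [ih]
    congr 1
    simp only [Function.comp_apply, ucode]
    rw [mul_add B, pow_add]
    ring

theorem s2_eq (B : ℕ) (G : List ℕ) (l : List ℕ) : s2 B G l = kv B (l.flatMap (tm G)) := by
  induction l with
  | nil => rfl
  | cons n l ih => rw [s2, ih, s1_eq, List.flatMap_cons, kv_append]; rfl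

theorem s3_eq (B : ℕ) (E : ℕ → List ℕ) (l : List (ℕ × List ℕ)) :
    s3 B E l = kv B (tms E l) := by
  induction l with
  | nil => rfl
  | cons g l ih => rw [s3, ih, s2_eq, tms, kv_append]; rfl

/-- the value of a list of terms -/
def tv (p q : R) (L : List (ℕ × ℕ)) : R := (L.map fun x => x.2 • wv p q x.1).sum

theorem tv_append (p q : R) (L L' : List (ℕ × ℕ)) : tv p q (L ++ L') = tv p q L + tv p q L' := by
  simp [tv]

theorem tv_tm (p q : R) (G : List ℕ) (hG : okc G) (n : ℕ) :
    tv p q (tm G n) = (n % 8) • (wv p q (n / 2 ^ 17 + 1) * ev p q G * wv p q (n / 8 % 2 ^ 14)) := by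
  unfold tv tm ev
  rw [List.map_map]
  induction G with
  | nil => simp
  | cons t l ih =>
    have ht : 1 ≤ t / 8 := by
      have : 8 ≤ t := hG t (by simp)
      omega
    rw [List.map_cons, List.sum_cons, ih (fun t ht => hG t (List.mem_cons_of_mem _ ht)),
      List.map_cons, List.sum_cons, mul_add, add_mul, smul_add]
    congr 1
    simp only [Function.comp_apply]
    rw [wv_ucode p q _ _ _ ht, mul_smul, mul_smul_comm, smul_mul_assoc]

/-- element `k` is known to vanish -/
def Good (p q : R) (E : ℕ → List ℕ) (k : ℕ) : Prop := okc (E k) ∧ ev p q (E k) = 0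

theorem tv_tms (p q : R) (E : ℕ → List ℕ) (k : ℕ) (hE : ∀ j < k, Good p q E j)
    (l : List (ℕ × List ℕ)) (hl : below k l = true) : tv p q (tms E l) = 0 := by
  induction l with
  | nil => simp [tms, tv]
  | cons g l ih =>
    rw [below, Bool.and_eq_true] at hl
    have hg : g.1 < k := by
      have := hl.1
      rw [Nat.blt] at this
      exact Nat.le_of_ble_eq_true this
    rw [tms, tv_append, ih hl.2, add_zero]
    have hG := hE g.1 hg
    generalize g.2 = m
    induction m with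
    | nil => simp [tv]
    | cons n m ihm => rw [List.flatMap_cons, tv_append, ihm, tv_tm p q _ hG.1, hG.2]; simp

theorem pos_ok {l : List ℕ} (h : pos l = true) : okc l := by
  induction l with
  | nil => intro t ht; simp at ht
  | cons t l ih =>
    rw [pos, Bool.and_eq_true] at h
    intro s hs
    rcases List.mem_cons.1 hs with rfl | hs
    · exact Nat.le_of_ble_eq_true h.1
    · exact ih h.2 s hs

/-- the check is sound -/
theorem chk_sound (p q : R) (h5 : (5 : R) = 0) (B n : ℕ) (hB : 3 ≤ B) (Mk : ℕ)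
    (hMk : Mk = mask B n) (E : ℕ → List ℕ) (k : ℕ) (X : List ℕ) (hX : ev p q X = 0)
    (l : List (ℕ × List ℕ)) (hE : ∀ j < k, Good p q E j) (h : chk B Mk E k X l = true) :
    Good p q E k := by
  have h5' : ∀ m : R, 5 • m = 0 := by
    intro m
    have : (5 : ℕ) • m = (5 : R) * m := by rw [nsmul_eq_mul]; norm_num
    rw [this, h5, zero_mul]
  rw [chk, Bool.and_eq_true, Bool.and_eq_true, Bool.and_eq_true, fin, Bool.and_eq_true,
    Bool.and_eq_true] at h
  obtain ⟨⟨hb, hp, hpX⟩, ⟨h1, h2⟩, h3⟩ := h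
  have hk := pos_ok hp
  have hXo := pos_ok hpX
  refine ⟨hk, ?_⟩
  set L := tms E l ++ (tm (E k) 12 ++ tm X 9) with hL
  have htot : ∀ B, tot B E k X l = kv B L := by
    intro B
    rw [tot, s3_eq, s1_eq, s1_eq, hL, kv_append, kv_append]; rfl
  rw [htot] at h1 h2
  rw [htot] at h3
  have e1 : kv B L = 5 * (kv B L / 5) := by
    have := Nat.eq_of_beq_eq_true h1
    rw [mul_comm]; exact this.symm
  have e2 : (kv B L / 5) &&& mask B n = kv B L / 5 := by
    rw [← hMk]; exact Nat.eq_of_beq_eq_true h2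
  have e3 : kv 0 L < 2 ^ B := by
    have h4 : Nat.shiftLeft 1 B = 1 * 2 ^ B := Nat.shiftLeft_eq 1 B
    rw [h4, one_mul] at h3
    exact Nat.le_of_ble_eq_true h3
  have key := kron h5' B hB n L (kv B L / 5) e1 e2 e3 (wv p q)
  change tv p q L = 0 at key
  rw [hL, tv_append, tv_append, tv_tms p q E k hE l hb, zero_add, tv_tm p q _ hk,
    tv_tm p q _ hXo, hX] at key
  norm_num [wv_one] at key
  have : ev p q (E k) = 16 * ev p q (E k) - 5 * (3 * ev p q (E k)) := by noncomm_ring
  rw [this, h5]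
  have h16 : (16 : R) * ev p q (E k) = 4 * (4 * ev p q (E k)) := by noncomm_ring
  rw [h16, key]
  simp

end Pool.Agent.Work.MP_d7201b_al.LN4
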