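import Mathlib
import Pool.Agent.Work.MP_d7201b_al_helper4.Word
import Pool.Agent.Work.MP_d7201b_al_LN.Fin

/-!
# Finitely many normal words
-/

set_option autoImplicit false

namespace Pool.Agent.Work.MP_d7201b_al.LN4

open LN

/-- the code of a word -/
def cd (l : List Bool) : ℕ := l.foldl (fun c b => 2 * c + (if b then 1 else 0)) 1

theorem cd_aux (l : List Bool) (c : ℕ) :
    l.foldl (fun c b => 2 * c + (if b then 1 else 0)) c
      = c * 2 ^ l.length + (cd l - 2 ^ l.length) ∧ 2 ^ l.length ≤ cd l ∧
        cd l < 2 ^ (l.length + 1) := by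
  induction l using List.reverseRecOn generalizing c with
  | nil => simp [cd]
  | append_singleton l b ih =>
    obtain ⟨h1, h2, h3⟩ := ih c
    have e : cd (l ++ [b]) = 2 * cd l + (if b then 1 else 0) := by
      simp only [cd, List.foldl_append, List.foldl_cons, List.foldl_nil]
    rw [List.foldl_append, h1, e, List.length_append, List.length_singleton]
    simp only [List.foldl_cons, List.foldl_nil]
    have hb : (if b then 1 else 0 : ℕ) ≤ 1 := by split_ifs <;> simp
    generalize (if b then 1 else 0 : ℕ) = e' at *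
    rw [pow_succ] at h3
    refine ⟨?_, ?_, ?_⟩
    · rw [pow_succ]
      have : c * (2 ^ l.length * 2) = 2 * (c * 2 ^ l.length) := by ring
      rw [this]
      omega
    · rw [pow_succ]; omega
    · rw [pow_succ, pow_succ]; omega

theorem cd_le (l : List Bool) : 2 ^ l.length ≤ cd l := (cd_aux l 1).2.1

theorem cd_lt (l : List Bool) : cd l < 2 ^ (l.length + 1) := (cd_aux l 1).2.2

theorem cd_append (a b : List Bool) :
    cd (a ++ b) = cd a * 2 ^ b.length + (cd b - 2 ^ b.length) := by
  have h := (cd_aux b (cd a)).1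
  rw [← h]
  simp only [cd, List.foldl_append]

theorem cd_pos (l : List Bool) : 1 ≤ cd l := le_trans Nat.one_le_two_pow (cd_le l)

theorem cd_surj (n : ℕ) (hn : 1 ≤ n) : ∃ l, cd l = n := by
  induction n using Nat.strong_induction_on with
  | _ n ih =>
    rcases Nat.lt_or_ge 1 n with h | h
    · obtain ⟨l, hl⟩ := ih (n / 2) (by omega) (by omega)
      refine ⟨l ++ [decide (n % 2 = 1)], ?_⟩
      have e : cd (l ++ [decide (n % 2 = 1)]) = 2 * cd l + (if n % 2 = 1 then 1 else 0) := by
        simp only [cd, List.foldl_append, List.foldl_cons, List.foldl_nil, decide_eq_true_eq]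
      rw [e, hl]
      split_ifs <;> omega
    · exact ⟨[], by simp [cd]; omega⟩

theorem cd_length_le {l l' : List Bool} (h : cd l' < cd l) : l'.length ≤ l.length := by
  by_contra hc
  have h1 := cd_le l'
  have h2 := cd_lt l
  have h3 : 2 ^ (l.length + 1) ≤ 2 ^ l'.length := Nat.pow_le_pow_right (by norm_num) (by omega)
  omega

theorem cd_mono (a b l l' : List Bool) (h : cd l' < cd l) :
    cd (a ++ l' ++ b) < cd (a ++ l ++ b) := by
  have h1 : cd (a ++ l') < cd (a ++ l) := by
    rw [cd_append, cd_append]
    have hlen : 2 ^ l'.length ≤ 2 ^ l.length :=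
      Nat.pow_le_pow_right (by norm_num) (cd_length_le h)
    obtain ⟨c, hc⟩ : ∃ c, cd a = c + 1 := ⟨cd a - 1, by have := cd_pos a; omega⟩
    rw [hc, add_mul, add_mul, one_mul, one_mul]
    have h3 := cd_le l
    have h4 := cd_le l'
    have h5 : c * 2 ^ l'.length ≤ c * 2 ^ l.length := Nat.mul_le_mul_left _ hlen
    omega
  rw [cd_append (a ++ l'), cd_append (a ++ l)]
  have : cd (a ++ l') * 2 ^ b.length < cd (a ++ l) * 2 ^ b.length :=
    Nat.mul_lt_mul_of_pos_right h1 (by positivity)
  omega

universe v

variable {B : Type v} [Ring B]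

theorem wd_eq_wv (X Y : B) (l : List Bool) : wd X Y l = wv X Y (cd l) := by
  induction l using List.reverseRecOn with
  | nil => simp [wd, cd, wv_one]
  | append_singleton l b ih =>
    have e : cd (l ++ [b]) = 2 * cd l + (if b then 1 else 0) := by
      simp only [cd, List.foldl_append, List.foldl_cons, List.foldl_nil]
    rw [wd_append, ih, e]
    cases b
    · simp [wd, wv_even X Y (cd_pos l)]
    · simp [wd, wv_odd X Y (cd_pos l)]

/-! ### the functions evaluated in the kernel -/

/-- all codes are less than `w` -/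
def lowr (w : ℕ) : List ℕ → Bool
  | [] => true
  | s :: l => (Nat.blt (Nat.shiftRight s 3) w).and (lowr w l)

/-- the first code is the largest and has coefficient one -/
def okR : List ℕ → Bool
  | [] => false
  | t :: r => (Nat.beq (Nat.land t 7) 1).and (lowr (Nat.shiftRight t 3) r)

/-- the leading word is a suffix of the word `m` -/
def suf (l : List ℕ) (m : ℕ) : Bool :=
  match l with
  | [] => false
  | t :: _ => (Nat.ble (Nat.shiftLeft 1 (Nat.log2 (Nat.shiftRight t 3))) m).and
      (Nat.beq (Nat.add (Nat.mod m (Nat.shiftLeft 1 (Nat.log2 (Nat.shiftRight t 3))))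
        (Nat.shiftLeft 1 (Nat.log2 (Nat.shiftRight t 3)))) (Nat.shiftRight t 3))

/-- the tree of normal words: the leaf `r k` says that the leading word of the element `k` is a
suffix -/
inductive NT where
  | r (k : ℕ)
  | n (a b : NT)

def NT.depth : NT → ℕ
  | .r _ => 0
  | .n a b => max a.depth b.depth + 1

/-- the check of the tree -/
def ct (E : ℕ → List ℕ) (K : ℕ) : NT → ℕ → Bool
  | .r k, m => (Nat.blt k K).and ((okR (E k)).and (suf (E k) m))
  | .n a b, m => (ct E K a (Nat.mul 2 m)).and (ct E K b (Nat.add (Nat.mul 2 m) 1))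

/-! ### soundness -/

theorem lowr_spec {w : ℕ} {l : List ℕ} (h : lowr w l = true) : ∀ s ∈ l, s / 8 < w := by
  induction l with
  | nil => simp
  | cons s l ih =>
    rw [lowr, Bool.and_eq_true] at h
    intro s' hs'
    rcases List.mem_cons.1 hs' with rfl | hs'
    · have h3 : Nat.shiftRight s' 3 = s' / 8 := Nat.shiftRight_eq_div_pow s' 3
      rw [← h3]
      exact Nat.le_of_ble_eq_true h.1
    · exact ih h.2 s' hs'

/-- the right hand sides of the reductions -/
def lows (X Y : B) (m : List Bool) : AddSubgroup B :=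
  AddSubgroup.closure {x | ∃ l', cd l' < cd m ∧ x = wd X Y l'}

theorem leaf_sound (X Y : B) (l : List ℕ) (hl : okc l) (h0 : ev X Y l = 0) (h1 : okR l = true)
    (pfx : List Bool) (h2 : suf l (cd pfx) = true) :
    ∃ a m, pfx = a ++ m ∧ wd X Y m ∈ lows X Y m := by
  cases l with
  | nil => simp [okR] at h1
  | cons t r =>
    rw [okR, Bool.and_eq_true] at h1
    rw [suf, Bool.and_eq_true] at h2
    have h3 : Nat.shiftRight t 3 = t / 8 := Nat.shiftRight_eq_div_pow t 3
    have h7 : Nat.land t 7 = t % 8 := Nat.and_two_pow_sub_one_eq_mod t 3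
    have h4 : ∀ b : ℕ, Nat.shiftLeft 1 b = 2 ^ b := fun b => by
      have := Nat.shiftLeft_eq 1 b
      rw [one_mul] at this; exact this
    rw [h3, h7] at h1
    rw [h3, h4] at h2
    have ha : t % 8 = 1 := Nat.eq_of_beq_eq_true h1.1
    have hb := lowr_spec h1.2
    have hc : 2 ^ Nat.log2 (t / 8) ≤ cd pfx := Nat.le_of_ble_eq_true h2.1
    have hd : cd pfx % 2 ^ Nat.log2 (t / 8) + 2 ^ Nat.log2 (t / 8) = t / 8 :=
      Nat.eq_of_beq_eq_true h2.2
    set k := Nat.log2 (t / 8) with hk
    have hkl : k ≤ pfx.length := by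
      by_contra hcon
      have h5 := cd_lt pfx
      have h6 : 2 ^ (pfx.length + 1) ≤ 2 ^ k := Nat.pow_le_pow_right (by norm_num) (by omega)
      omega
    refine ⟨pfx.take (pfx.length - k), pfx.drop (pfx.length - k),
      (List.take_append_drop _ _).symm, ?_⟩
    set m := pfx.drop (pfx.length - k) with hm
    have hml : m.length = k := by rw [hm, List.length_drop]; omega
    have hcm : cd m = t / 8 := by
      have e := cd_append (pfx.take (pfx.length - k)) m
      rw [hm, List.take_append_drop, ← hm, hml] at e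
      have h5 := cd_le m
      have h6 := cd_lt m
      rw [hml] at h5 h6
      rw [pow_succ] at h6
      rw [← hd, e, Nat.mul_add_mod_self_right, Nat.mod_eq_of_lt (by omega)]
      omega
    have he : wd X Y m = - (r.map fun t => (t % 8) • wv X Y (t / 8)).sum := by
      rw [wd_eq_wv, hcm]
      rw [ev, List.map_cons, List.sum_cons, ha, one_smul] at h0
      exact eq_neg_of_add_eq_zero_left h0
    rw [he]
    refine neg_mem (AddSubgroup.list_sum_mem _ ?_)
    intro x hx
    obtain ⟨s, hs, rfl⟩ := List.mem_map.1 hx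
    refine AddSubgroup.nsmul_mem _ (AddSubgroup.subset_closure ?_) _
    have hs8 : 8 ≤ s := hl s (List.mem_cons_of_mem _ hs)
    obtain ⟨l', hl'⟩ := cd_surj (s / 8) (by omega)
    refine ⟨l', ?_, ?_⟩
    · rw [hl', hcm]; exact hb s hs
    · rw [wd_eq_wv, hl']

theorem ct_sound (X Y : B) (E : ℕ → List ℕ) (K : ℕ) (hE : ∀ k < K, Good X Y E k) (t : NT)
    (pfx : List Bool) (h : ct E K t (cd pfx) = true) (l : List Bool) (hl : t.depth ≤ l.length) :
    ∃ a b m, pfx ++ l = a ++ m ++ b ∧ wd X Y m ∈ lows X Y m := by
  induction t generalizing pfx l with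
  | r k =>
    rw [ct, Bool.and_eq_true, Bool.and_eq_true] at h
    have hk : k < K := Nat.le_of_ble_eq_true h.1
    obtain ⟨a, m, e, hm⟩ := leaf_sound X Y (E k) (hE k hk).1 (hE k hk).2 h.2.1 pfx h.2.2
    exact ⟨a, l, m, by rw [e], hm⟩
  | n a b iha ihb =>
    rw [ct, Bool.and_eq_true] at h
    rw [NT.depth] at hl
    cases l with
    | nil => simp at hl
    | cons c l =>
      rw [List.length_cons] at hl
      have e : ∀ c : Bool, cd (pfx ++ [c]) = 2 * cd pfx + (if c then 1 else 0) := by
        intro c
        simp only [cd, List.foldl_append, List.foldl_cons, List.foldl_nil]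
      have e2 : pfx ++ c :: l = (pfx ++ [c]) ++ l := by simp
      rw [e2]
      cases c
      · refine iha (pfx ++ [false]) ?_ l (by omega)
        rw [e]; simpa using h.1
      · refine ihb (pfx ++ [true]) ?_ l (by omega)
        rw [e]; simpa using h.2

end Pool.Agent.Work.MP_d7201b_al.LN4
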