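import Mathlib
import Pool.Agent.Work.MP_d7201b_al_helper4.Tree
import Pool.Agent.Work.MP_d7201b_al_helper4.Cert1
import Pool.Agent.Work.MP_d7201b_al_helper4.Cert2
import Pool.Agent.Work.MP_d7201b_al_helper4.Cert3
import Pool.Agent.Work.MP_d7201b_al_helper4.Cert4

/-!
# The tree of normal words (generated)
-/

set_option autoImplicit false
set_option maxRecDepth 100000

namespace Pool.Agent.Work.MP_d7201b_al.LN4

noncomputable def nt : NT :=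
(.n (.n (.n (.n (.r 0) (.n (.n (.n (.n (.r 0) (.n (.n (.n (.r 316) (.r 278)) (.n (.n (.r 249) (.r
305)) (.r 264))) (.n (.n (.r 269) (.r 320)) (.n (.r 314) (.r 1))))) (.n (.n (.n (.n (.r 0) (.r
272)) (.n (.n (.r 230) (.r 313)) (.r 331))) (.n (.n (.n (.r 258) (.r 297)) (.n (.r 307) (.n (.n
(.r 322) (.n (.r 139) (.n (.n (.r 24) (.n (.r 116) (.r 237))) (.n (.n (.r 26) (.r 256)) (.r 1)))))
(.n (.n (.r 325) (.n (.r 329) (.r 262))) (.r 1))))) (.n (.r 319) (.n (.n (.r 327) (.n (.r 143) (.r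
260))) (.r 1))))) (.n (.n (.n (.r 147) (.r 300)) (.n (.r 318) (.n (.n (.r 24) (.n (.r 116) (.r
210))) (.n (.n (.r 26) (.r 256)) (.r 1))))) (.n (.r 330) (.r 1))))) (.n (.n (.n (.n (.r 0) (.n (.r
273) (.r 131))) (.n (.n (.r 53) (.r 298)) (.n (.r 294) (.r 275)))) (.n (.n (.r 284) (.n (.r 333)
(.n (.n (.r 322) (.n (.r 90) (.n (.n (.r 24) (.n (.r 116) (.r 237))) (.n (.n (.r 26) (.r 256)) (.r
1))))) (.n (.n (.r 325) (.n (.r 329) (.r 262))) (.r 1))))) (.n (.n (.r 322) (.n (.n (.r 38) (.n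
(.r 332) (.r 215))) (.n (.n (.r 24) (.n (.r 116) (.r 237))) (.n (.n (.r 26) (.r 256)) (.r 1)))))
(.n (.n (.r 325) (.n (.r 329) (.r 262))) (.r 1))))) (.n (.n (.n (.r 281) (.r 302)) (.n (.n (.r 38)
(.n (.r 332) (.n (.r 323) (.r 261)))) (.n (.n (.r 24) (.n (.r 116) (.r 237))) (.n (.n (.r 26) (.r
256)) (.r 1))))) (.n (.n (.r 327) (.n (.n (.r 38) (.n (.r 332) (.r 180))) (.r 260))) (.r 1)))))
(.n (.n (.n (.n (.r 0) (.r 301)) (.r 300)) (.n (.n (.r 38) (.n (.r 332) (.n (.r 323) (.r 235))))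
(.n (.r 315) (.n (.n (.r 26) (.r 256)) (.r 1))))) (.n (.r 314) (.r 1))))) (.n (.n (.n (.n (.r 0)
(.n (.n (.n (.r 316) (.n (.r 250) (.r 236))) (.n (.n (.r 249) (.r 305)) (.r 264))) (.n (.n (.n (.r
259) (.r 300)) (.n (.r 150) (.r 247))) (.n (.r 314) (.r 1))))) (.n (.n (.n (.n (.r 0) (.n (.r 149)
(.r 148))) (.n (.n (.r 230) (.r 313)) (.r 331))) (.n (.n (.n (.r 258) (.r 297)) (.n (.r 307) (.n
(.n (.r 322) (.n (.r 139) (.n (.n (.r 24) (.n (.r 116) (.r 237))) (.n (.n (.r 26) (.r 256)) (.r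
1))))) (.n (.n (.r 325) (.n (.r 329) (.r 262))) (.r 1))))) (.n (.n (.r 303) (.n (.n (.r 38) (.r
202)) (.n (.n (.r 24) (.n (.r 116) (.r 237))) (.n (.n (.r 26) (.r 256)) (.r 1))))) (.n (.n (.r
327) (.n (.r 143) (.r 260))) (.r 1))))) (.n (.n (.n (.r 147) (.r 300)) (.n (.n (.r 38) (.n (.r
332) (.r 127))) (.n (.n (.r 24) (.n (.r 116) (.r 210))) (.n (.n (.r 26) (.r 256)) (.r 1))))) (.n
(.n (.r 39) (.n (.r 111) (.r 308))) (.r 1))))) (.n (.n (.n (.n (.r 0) (.n (.n (.r 205) (.r 280))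
(.r 131))) (.n (.n (.r 53) (.n (.r 279) (.n (.r 73) (.r 290)))) (.n (.r 294) (.n (.r 286) (.r
1))))) (.n (.n (.r 284) (.n (.r 333) (.n (.n (.r 322) (.n (.r 90) (.n (.n (.r 24) (.n (.r 116) (.r
237))) (.n (.n (.r 26) (.r 256)) (.r 1))))) (.n (.n (.r 325) (.n (.r 329) (.r 262))) (.r 1)))))
(.n (.n (.r 322) (.n (.n (.r 38) (.n (.r 332) (.r 215))) (.n (.n (.r 24) (.n (.r 116) (.r 237)))
(.n (.n (.r 26) (.r 256)) (.r 1))))) (.n (.n (.r 325) (.n (.r 329) (.r 262))) (.r 1))))) (.n (.n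
(.n (.r 281) (.r 302)) (.n (.n (.r 38) (.n (.r 332) (.n (.r 323) (.r 261)))) (.n (.n (.r 24) (.n
(.r 116) (.r 237))) (.n (.n (.r 26) (.r 256)) (.r 1))))) (.n (.n (.r 327) (.n (.n (.r 38) (.n (.r
332) (.r 180))) (.r 260))) (.r 1))))) (.n (.n (.n (.n (.r 0) (.r 301)) (.r 300)) (.n (.n (.r 38)
(.n (.r 332) (.n (.r 323) (.r 235)))) (.n (.n (.r 24) (.n (.r 116) (.r 210))) (.n (.n (.r 26) (.r
256)) (.r 1))))) (.n (.n (.r 39) (.n (.r 111) (.n (.r 118) (.n (.r 164) (.r 1))))) (.r 1))))) (.n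
(.n (.n (.n (.r 0) (.n (.n (.n (.n (.r 0) (.n (.r 271) (.r 233))) (.n (.n (.r 267) (.r 277)) (.r
236))) (.n (.n (.n (.r 266) (.r 211)) (.r 305)) (.n (.n (.r 65) (.n (.r 155) (.n (.n (.r 24) (.n
(.r 116) (.r 237))) (.n (.n (.r 26) (.r 256)) (.r 1))))) (.n (.n (.r 327) (.n (.n (.r 38) (.n (.r
332) (.r 180))) (.r 260))) (.r 1))))) (.n (.n (.n (.r 259) (.r 300)) (.n (.r 150) (.n (.r 315) (.r
306)))) (.n (.r 314) (.r 1))))) (.n (.n (.n (.n (.r 0) (.n (.r 149) (.r 148))) (.n (.n (.r 230)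
(.n (.n (.r 251) (.n (.r 307) (.n (.n (.r 322) (.n (.r 139) (.n (.n (.r 24) (.n (.r 116) (.r
237))) (.n (.n (.r 26) (.r 256)) (.r 1))))) (.n (.n (.r 325) (.n (.r 329) (.r 262))) (.r 1)))))
(.n (.n (.r 303) (.n (.n (.r 38) (.r 202)) (.n (.n (.r 24) (.n (.r 116) (.r 237))) (.n (.n (.r 26)
(.r 256)) (.r 1))))) (.n (.n (.r 327) (.n (.r 143) (.r 260))) (.r 1))))) (.n (.n (.r 185) (.n (.r
135) (.n (.r 145) (.n (.n (.r 26) (.r 256)) (.r 1))))) (.n (.n (.r 39) (.n (.r 111) (.r 308))) (.r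
1))))) (.n (.n (.n (.r 258) (.n (.r 184) (.r 67))) (.n (.r 307) (.n (.n (.r 322) (.n (.r 139) (.n
(.n (.r 24) (.n (.r 116) (.r 237))) (.n (.n (.r 26) (.r 256)) (.r 1))))) (.n (.n (.r 325) (.n (.r
329) (.r 262))) (.r 1))))) (.n (.n (.r 303) (.n (.n (.r 38) (.r 202)) (.n (.n (.r 24) (.n (.r 116)
(.r 237))) (.n (.n (.r 26) (.r 256)) (.r 1))))) (.n (.n (.r 327) (.n (.r 143) (.r 260))) (.r
1))))) (.n (.n (.n (.r 147) (.r 300)) (.n (.n (.r 38) (.n (.r 332) (.n (.r 323) (.r 235)))) (.n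
(.n (.r 24) (.n (.r 116) (.r 210))) (.n (.n (.r 26) (.r 256)) (.r 1))))) (.n (.n (.r 39) (.n (.r
111) (.r 308))) (.r 1))))) (.n (.n (.n (.n (.r 0) (.n (.n (.r 205) (.n (.n (.r 223) (.r 305)) (.r
291))) (.r 131))) (.n (.n (.r 53) (.n (.n (.r 183) (.n (.r 307) (.r 93))) (.n (.r 73) (.r 290))))
(.n (.n (.r 328) (.n (.r 72) (.n (.r 112) (.n (.n (.r 26) (.r 256)) (.r 1))))) (.n (.r 286) (.r
1))))) (.n (.n (.n (.r 282) (.n (.r 287) (.r 57))) (.n (.r 333) (.n (.n (.r 322) (.n (.r 90) (.n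
(.n (.r 24) (.n (.r 116) (.r 237))) (.n (.n (.r 26) (.r 256)) (.r 1))))) (.n (.n (.r 325) (.n (.r
329) (.r 262))) (.r 1))))) (.n (.n (.r 322) (.n (.n (.r 38) (.n (.r 332) (.r 215))) (.n (.n (.r
24) (.n (.r 116) (.r 237))) (.n (.n (.r 26) (.r 256)) (.r 1))))) (.n (.n (.r 325) (.n (.r 329) (.r
262))) (.r 1))))) (.n (.n (.n (.r 281) (.n (.r 50) (.n (.r 321) (.n (.r 69) (.r 1))))) (.n (.n (.r
38) (.n (.r 332) (.n (.r 323) (.r 261)))) (.n (.n (.r 24) (.n (.r 116) (.r 237))) (.n (.n (.r 26)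
(.r 256)) (.r 1))))) (.n (.n (.n (.r 20) (.n (.r 50) (.r 31))) (.n (.n (.r 38) (.n (.r 332) (.r
180))) (.n (.r 268) (.r 231)))) (.r 1))))) (.n (.n (.n (.n (.r 0) (.n (.r 51) (.r 52))) (.n (.r
50) (.n (.r 321) (.n (.n (.r 39) (.r 257)) (.r 1))))) (.n (.n (.r 38) (.n (.r 332) (.n (.r 323)
(.n (.r 229) (.r 1))))) (.n (.n (.r 24) (.n (.r 116) (.n (.r 206) (.r 204)))) (.n (.n (.r 26) (.r
256)) (.r 1))))) (.n (.n (.n (.r 20) (.n (.r 50) (.n (.r 321) (.r 228)))) (.n (.n (.r 38) (.n (.r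
332) (.r 180))) (.n (.n (.r 24) (.r 203)) (.n (.r 164) (.r 1))))) (.r 1))))) (.n (.n (.n (.n (.r
0) (.n (.n (.n (.n (.r 0) (.n (.n (.r 224) (.r 253)) (.r 233))) (.n (.n (.r 267) (.n (.r 295) (.n
(.r 319) (.r 159)))) (.n (.r 293) (.n (.r 330) (.r 1))))) (.n (.n (.n (.r 266) (.r 211)) (.n (.r
311) (.n (.n (.r 322) (.n (.n (.r 38) (.n (.r 332) (.r 215))) (.n (.n (.r 24) (.n (.r 116) (.r
237))) (.n (.n (.r 26) (.r 256)) (.r 1))))) (.n (.n (.r 325) (.n (.r 329) (.r 262))) (.r 1)))))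
(.n (.n (.r 65) (.n (.r 155) (.n (.n (.r 24) (.n (.r 116) (.r 237))) (.n (.n (.r 26) (.r 256)) (.r
1))))) (.n (.n (.r 327) (.n (.n (.r 38) (.n (.r 332) (.r 180))) (.r 260))) (.r 1))))) (.n (.n (.n
(.r 259) (.r 300)) (.n (.r 150) (.n (.r 315) (.r 306)))) (.n (.r 314) (.r 1))))) (.n (.n (.n (.n
(.r 0) (.n (.r 149) (.r 148))) (.n (.n (.r 230) (.n (.n (.r 251) (.n (.r 307) (.n (.n (.r 322) (.n
(.r 139) (.n (.n (.r 24) (.n (.r 116) (.r 237))) (.n (.n (.r 26) (.r 256)) (.r 1))))) (.n (.n (.r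
325) (.n (.r 329) (.r 262))) (.r 1))))) (.n (.n (.r 303) (.n (.n (.r 38) (.r 202)) (.n (.n (.r 24)
(.n (.r 116) (.r 237))) (.n (.n (.r 26) (.r 256)) (.r 1))))) (.n (.n (.r 327) (.n (.r 143) (.r
260))) (.r 1))))) (.n (.n (.r 185) (.n (.r 135) (.n (.r 145) (.n (.n (.r 26) (.r 256)) (.r 1)))))
(.n (.n (.r 39) (.n (.r 111) (.r 308))) (.r 1))))) (.n (.n (.n (.r 258) (.n (.r 184) (.r 67))) (.n
(.n (.r 284) (.n (.r 333) (.n (.n (.r 322) (.n (.r 90) (.n (.n (.r 24) (.n (.r 116) (.r 237))) (.n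
(.n (.r 26) (.r 256)) (.r 1))))) (.n (.n (.r 325) (.n (.r 329) (.r 262))) (.r 1))))) (.n (.n (.r
322) (.n (.r 139) (.n (.n (.r 24) (.n (.r 116) (.r 237))) (.n (.n (.r 26) (.r 256)) (.r 1))))) (.n
(.n (.r 325) (.n (.r 329) (.r 262))) (.r 1))))) (.n (.n (.r 303) (.n (.n (.r 38) (.n (.r 332) (.n
(.r 323) (.r 261)))) (.n (.n (.r 24) (.n (.r 116) (.r 237))) (.n (.n (.r 26) (.r 256)) (.r 1)))))
(.n (.n (.r 327) (.n (.n (.r 38) (.n (.r 332) (.r 180))) (.r 260))) (.r 1))))) (.n (.n (.n (.r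
147) (.r 300)) (.n (.n (.r 38) (.n (.r 332) (.n (.r 323) (.r 235)))) (.n (.n (.r 24) (.n (.r 116)
(.r 210))) (.n (.n (.r 26) (.r 256)) (.r 1))))) (.n (.n (.r 39) (.n (.r 111) (.n (.r 118) (.n (.r
164) (.r 1))))) (.r 1))))) (.n (.n (.n (.n (.r 0) (.n (.n (.r 205) (.n (.n (.r 223) (.r 305)) (.r
291))) (.r 131))) (.n (.n (.r 53) (.n (.n (.r 183) (.n (.r 307) (.r 93))) (.n (.r 73) (.r 290))))
(.n (.n (.r 328) (.n (.r 72) (.n (.r 112) (.n (.n (.r 26) (.r 256)) (.r 1))))) (.n (.r 286) (.r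
1))))) (.n (.n (.n (.r 282) (.n (.r 287) (.r 57))) (.n (.r 333) (.n (.n (.r 322) (.n (.r 90) (.n
(.n (.r 24) (.n (.r 116) (.r 237))) (.n (.n (.r 26) (.r 256)) (.r 1))))) (.n (.n (.r 325) (.n (.r
329) (.r 262))) (.r 1))))) (.n (.n (.r 322) (.n (.n (.r 38) (.n (.r 332) (.r 215))) (.n (.n (.r
24) (.n (.r 116) (.r 237))) (.n (.n (.r 26) (.r 256)) (.r 1))))) (.n (.n (.r 325) (.n (.r 329) (.r
262))) (.r 1))))) (.n (.n (.n (.r 281) (.n (.r 50) (.n (.r 321) (.n (.r 69) (.r 1))))) (.n (.n (.r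
38) (.n (.r 332) (.n (.r 323) (.r 261)))) (.n (.n (.r 24) (.n (.r 116) (.r 237))) (.n (.n (.r 26)
(.r 256)) (.r 1))))) (.n (.n (.n (.r 20) (.n (.r 50) (.r 31))) (.n (.n (.r 38) (.n (.r 332) (.r
180))) (.n (.n (.r 24) (.r 203)) (.r 231)))) (.r 1))))) (.n (.n (.n (.n (.r 0) (.n (.r 51) (.r
52))) (.n (.r 50) (.n (.r 321) (.n (.n (.r 39) (.r 257)) (.r 1))))) (.n (.n (.r 38) (.n (.r 332)
(.n (.r 323) (.n (.r 229) (.r 1))))) (.n (.n (.r 24) (.n (.r 116) (.n (.r 206) (.r 204)))) (.n (.n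
(.r 26) (.r 256)) (.r 1))))) (.n (.n (.n (.r 20) (.n (.r 50) (.n (.r 321) (.r 228)))) (.n (.n (.r
38) (.n (.r 332) (.r 180))) (.n (.n (.r 24) (.r 203)) (.n (.r 164) (.r 1))))) (.r 1)))))

theorem check_nt : ct (get env) 334 nt 1 = true := by decide +kernel

theorem nt_depth : nt.depth = 19 := by decide +kernel

end Pool.Agent.Work.MP_d7201b_al.LN4
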