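import Mathlib
import Pool.Agent.Work.MP_d7201b_al_helper4.Final
import Pool.Agent.Work.MP_d7201b_al_LN.Main

/-!
# Two-generator subgroups have finite image

`5 = 0` in `B` and `(σ g - 1) ^ 4 = 0` for all `g`: the image of every two-generator subgroup is
finite.
-/

set_option autoImplicit false

namespace Pool.Agent.Work.MP_d7201b_al.LN4

open LN

universe u v

section

variable {R : Type*} [Ring R]

theorem good_all (p q : R) (h5 : (5 : R) = 0) (hp : p ^ 4 = 0) (hq : q ^ 4 = 0)
    (hraw : ∀ d₁ d₂ : ℕ, ev p q (raw d₁ d₂ TT) = 0) : ∀ j < 334, Good p q (get env) j := by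
  have e0 : get env 0 = [129] := rfl
  have e1 : get env 1 = [249] := rfl
  have k0 : ∀ j < 2, Good p q (get env) j := by
    intro j hj
    have hj' : j = 0 ∨ j = 1 := by omega
    rcases hj' with rfl | rfl
    · rw [Good, e0]
      refine ⟨fun t ht => ?_, ?_⟩
      · rw [List.mem_singleton.1 ht]; norm_num
      · simp [ev, wv_q4, hq]
    · rw [Good, e1]
      refine ⟨fun t ht => ?_, ?_⟩
      · rw [List.mem_singleton.1 ht]; norm_num
      · simp [ev, wv_p4, hp]
  have k1 : ∀ j < 76, Good p q (get env) j := by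
    have h := chkAll_sound p q h5 hraw (get env) 2 cert0 check0 k0
    rw [len0] at h; exact h
  have k2 : ∀ j < 89, Good p q (get env) j := by
    have h := chkAll_sound p q h5 hraw (get env) 76 cert1 check1 k1
    rw [len1] at h; exact h
  have k3 : ∀ j < 99, Good p q (get env) j := by
    have h := chkAll_sound p q h5 hraw (get env) 89 cert2 check2 k2
    rw [len2] at h; exact h
  have k4 : ∀ j < 103, Good p q (get env) j := by
    have h := chkAll_sound p q h5 hraw (get env) 99 cert3 check3 k3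
    rw [len3] at h; exact h
  have k5 : ∀ j < 108, Good p q (get env) j := by
    have h := chkAll_sound p q h5 hraw (get env) 103 cert4 check4 k4
    rw [len4] at h; exact h
  have k6 : ∀ j < 124, Good p q (get env) j := by
    have h := chkAll_sound p q h5 hraw (get env) 108 cert5 check5 k5
    rw [len5] at h; exact h
  have k7 : ∀ j < 139, Good p q (get env) j := by
    have h := chkAll_sound p q h5 hraw (get env) 124 cert6 check6 k6
    rw [len6] at h; exact h
  have k8 : ∀ j < 145, Good p q (get env) j := by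
    have h := chkAll_sound p q h5 hraw (get env) 139 cert7 check7 k7
    rw [len7] at h; exact h
  have k9 : ∀ j < 156, Good p q (get env) j := by
    have h := chkAll_sound p q h5 hraw (get env) 145 cert8 check8 k8
    rw [len8] at h; exact h
  have k10 : ∀ j < 163, Good p q (get env) j := by
    have h := chkAll_sound p q h5 hraw (get env) 156 cert9 check9 k9
    rw [len9] at h; exact h
  have k11 : ∀ j < 173, Good p q (get env) j := by
    have h := chkAll_sound p q h5 hraw (get env) 163 cert10 check10 k10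
    rw [len10] at h; exact h
  have k12 : ∀ j < 194, Good p q (get env) j := by
    have h := chkAll_sound p q h5 hraw (get env) 173 cert11 check11 k11
    rw [len11] at h; exact h
  have k13 : ∀ j < 220, Good p q (get env) j := by
    have h := chkAll_sound p q h5 hraw (get env) 194 cert12 check12 k12
    rw [len12] at h; exact h
  have k14 : ∀ j < 241, Good p q (get env) j := by
    have h := chkAll_sound p q h5 hraw (get env) 220 cert13 check13 k13
    rw [len13] at h; exact h
  have k15 : ∀ j < 266, Good p q (get env) j := by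
    have h := chkAll_sound p q h5 hraw (get env) 241 cert14 check14 k14
    rw [len14] at h; exact h
  have k16 : ∀ j < 319, Good p q (get env) j := by
    have h := chkAll_sound p q h5 hraw (get env) 266 cert15 check15 k15
    rw [len15] at h; exact h
  have k17 : ∀ j < 334, Good p q (get env) j := by
    have h := chkAll_sound p q h5 hraw (get env) 319 cert16 check16 k16
    rw [len16] at h; exact h
  exact k17

/-! ### the exponential -/

section poly

open Polynomial

lemma ee_poly (i : ℕ) : ee i (X : ℤ[X]) * ee 1 (X : ℤ[X]) = ee (i + 1) (X : ℤ[X])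
    + 5 * (-(i : ℤ[X]) * X ^ 2)
    + X ^ 4 * ((i : ℤ[X]) + 9 * (i : ℤ[X]) ^ 2 + (i : ℤ[X]) ^ 3
      + (3 * (i : ℤ[X]) ^ 2 + 3 * (i : ℤ[X]) ^ 3) * X + (i : ℤ[X]) ^ 3 * X ^ 2) := by
  unfold ee
  simp only [nsmul_eq_mul]
  push_cast
  ring

lemma fe_poly (i : ℕ) : ff i (X : ℤ[X]) * ee i (X : ℤ[X]) = 1
    + 5 * ((i : ℤ[X]) * X + 2 * (i : ℤ[X]) ^ 2 * X ^ 2 + 4 * (i : ℤ[X]) ^ 3 * X ^ 3)
    + X ^ 4 * (17 * (i : ℤ[X]) ^ 4 + 15 * (i : ℤ[X]) ^ 5 * X + 4 * (i : ℤ[X]) ^ 6 * X ^ 2) := by
  unfold ee ff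
  simp only [nsmul_eq_mul]
  push_cast
  ring

lemma aeval_ee (x : R) (i : ℕ) : aeval x (ee i (X : ℤ[X])) = ee i x := by
  simp [ee, map_ofNat]

lemma aeval_ff (x : R) (i : ℕ) : aeval x (ff i (X : ℤ[X])) = ff i x := by
  simp [ff, map_ofNat]

lemma ee_succ (h5 : (5 : R) = 0) (x : R) (hx : x ^ 4 = 0) (i : ℕ) :
    ee (i + 1) x = ee i x * ee 1 x := by
  have h := congrArg (aeval x) (ee_poly i)
  simp only [map_mul, map_add, aeval_ee, map_pow, aeval_X, map_ofNat] at h
  rw [h, h5, hx, zero_mul, zero_mul, add_zero, add_zero]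

lemma ff_ee (h5 : (5 : R) = 0) (x : R) (hx : x ^ 4 = 0) (i : ℕ) : ff i x * ee i x = 1 := by
  have h := congrArg (aeval x) (fe_poly i)
  simp only [map_mul, map_add, aeval_ee, aeval_ff, map_pow, aeval_X, map_ofNat, map_one] at h
  rw [h, h5, hx, zero_mul, zero_mul, add_zero, add_zero]

lemma ee_ff (h5 : (5 : R) = 0) (x : R) (hx : x ^ 4 = 0) (i : ℕ) : ee i x * ff i x = 1 := by
  have h := congrArg (aeval x) (fe_poly i)
  rw [mul_comm] at h
  simp only [map_mul, map_add, aeval_ee, aeval_ff, map_pow, aeval_X, map_ofNat, map_one] at h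
  rw [h, h5, hx, zero_mul, zero_mul, add_zero, add_zero]

lemma ee_pow (h5 : (5 : R) = 0) (x : R) (hx : x ^ 4 = 0) (i : ℕ) : ee i x = ee 1 x ^ i := by
  induction i with
  | zero => simp [ee]
  | succ i ih => rw [ee_succ h5 x hx, ih, pow_succ]

end poly

lemma relN (h5 : (5 : R) = 0) (W W' : R) (hW : (W - 1) ^ 4 = 0) (h : W' * W = 1) :
    1 + (W + (W' + (W * W + W' * W'))) = 0 := by
  have h1 : 1 + W + W ^ 2 + W ^ 3 + W ^ 4 = 0 := by
    have : 1 + W + W ^ 2 + W ^ 3 + W ^ 4 = (W - 1) ^ 4 + 5 * (W ^ 3 - W ^ 2 + W) := by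
      noncomm_ring
    rw [this, hW, h5, zero_mul, add_zero]
  have h2 : W' * W' * (1 + W + W ^ 2 + W ^ 3 + W ^ 4) = 0 := by rw [h1, mul_zero]
  have e : W' * W' * (1 + W + W ^ 2 + W ^ 3 + W ^ 4)
      = W' * W' + W' * (W' * W) + W' * (W' * W) * W + W' * (W' * W) * W * W
        + W' * (W' * W) * W * W * W := by noncomm_ring
  rw [e, h] at h2
  simp only [mul_one, h, one_mul] at h2
  rw [← h2]; abel

end

variable {Γ : Type u} [Group Γ] {B : Type v} [Ring B]

/-- **Two-generator subgroups have finite image.** -/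
theorem two_finite (σ : Γ →* B) (h5 : (5 : B) = 0) (h4 : ∀ g, (σ g - 1) ^ 4 = 0) (g h : Γ) :
    (σ '' (Subgroup.closure {g, h} : Set Γ)).Finite := by
  set X : B := (σ g - 1) + 2 * (σ g - 1) ^ 2 + 2 * (σ g - 1) ^ 3 with hX
  set Y : B := (σ h - 1) + 2 * (σ h - 1) ^ 2 + 2 * (σ h - 1) ^ 3 with hY
  obtain ⟨hX4, hgX⟩ := log_exp h5 (σ g - 1) X (h4 g) hX
  obtain ⟨hY4, hhY⟩ := log_exp h5 (σ h - 1) Y (h4 h) hY
  have hg1 : σ g = ee 1 X := by
    have : σ g = 1 + (σ g - 1) := by abel
    rw [this, hgX]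
    simp only [ee, one_smul, one_pow, mul_one, nsmul_eq_mul]
    push_cast
    abel
  have hh1 : σ h = ee 1 Y := by
    have : σ h = 1 + (σ h - 1) := by abel
    rw [this, hhY]
    simp only [ee, one_smul, one_pow, mul_one, nsmul_eq_mul]
    push_cast
    abel
  have hraw := raw_zero X Y h5 (by
    intro i _ j _
    have hW : ee i X * ee j Y = σ (g ^ i * h ^ j) := by
      rw [map_mul, map_pow, map_pow, hg1, hh1, ← ee_pow h5 X hX4, ← ee_pow h5 Y hY4]
    have hinv : ff j Y * ff i X * (ee i X * ee j Y) = 1 := by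
      calc ff j Y * ff i X * (ee i X * ee j Y) = ff j Y * (ff i X * ee i X) * ee j Y := by
            simp only [mul_assoc]
        _ = 1 := by rw [ff_ee h5 X hX4, mul_one, ff_ee h5 Y hY4]
    refine relN h5 _ _ ?_ hinv
    rw [hW]; exact h4 _)
  have hall := good_all X Y h5 hX4 hY4 hraw
  refine fin_of_leading σ h5 h4 g h X Y hgX hhY 19 cd (fun a b l l' hl => cd_mono a b l l' hl) ?_
  intro l hl
  obtain ⟨a, b, m, e, hm⟩ := ct_sound X Y (get env) 334 hall nt [] check_nt l (by
    rw [nt_depth, hl])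
  exact ⟨a, b, m, by simpa using e, hm⟩

/-- helper11's form of the statement -/
theorem fin_stmt : FinStmt.{u} := fun _ _ _ _ σ h5 h4 g h => two_finite σ h5 h4 g h

end Pool.Agent.Work.MP_d7201b_al.LN4
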