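import Mathlib
import Pool.Agent.Work.MP_d7201b_al_helper4.Word

/-!
# The input relations

`W = E i p * E j q`, `W' = W⁻¹`, `1 + W + W ^ 2 + W' + W' ^ 2 = 0` for `i, j < 5`; the coefficients
of the monomials `i ^ D₁ j ^ D₂`, collected by `D₁ mod 4` and `D₂ mod 4`, vanish.
-/

set_option autoImplicit false

namespace Pool.Agent.Work.MP_d7201b_al.LN4

variable {R : Type*} [Ring R]

/-- concatenation of codes -/
def cat (a b : ℕ) : ℕ :=
  Nat.add (Nat.shiftLeft (Nat.sub a 1) (Nat.log2 b)) b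

theorem cat_eq (a b : ℕ) : cat a b = (a - 1) * 2 ^ Nat.log2 b + b := by
  have h4 : Nat.shiftLeft (a - 1) (Nat.log2 b) = (a - 1) * 2 ^ Nat.log2 b := Nat.shiftLeft_eq _ _
  rw [cat, Nat.sub_eq, h4, Nat.add_eq]

theorem cat_pos (a b : ℕ) (hb : 1 ≤ b) : 1 ≤ cat a b := by rw [cat_eq]; omega

theorem wv_catc (p q : R) (a b : ℕ) (ha : 1 ≤ a) (hb : 1 ≤ b) :
    wv p q (cat a b) = wv p q a * wv p q b := by
  have h1 : 2 ^ Nat.log2 b ≤ b := Nat.log2_self_le (by omega)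
  have h2 : b < 2 ^ (Nat.log2 b + 1) := Nat.lt_log2_self
  rw [pow_succ] at h2
  have e : cat a b = a * 2 ^ Nat.log2 b + (b - 2 ^ Nat.log2 b) := by
    rw [cat_eq]
    obtain ⟨c, rfl⟩ : ∃ c, a = c + 1 := ⟨a - 1, by omega⟩
    rw [Nat.add_sub_cancel, add_mul, one_mul]; omega
  rw [e, wv_cat p q ha (by omega), Nat.add_sub_cancel' h1]

/-- a term `a i ^ e j ^ f w` -/
structure Tm where
  a : ℕ
  e : ℕ
  f : ℕ
  c : ℕ

/-- the value -/
def evT (p q : R) (i j : ℕ) (T : List Tm) : R :=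
  (T.map fun t => (t.a * i ^ t.e * j ^ t.f) • wv p q t.c).sum

def Tm.mul (s t : Tm) : Tm :=
  ⟨Nat.mul s.a t.a, Nat.add s.e t.e, Nat.add s.f t.f, cat s.c t.c⟩

def mul1 (s : Tm) : List Tm → List Tm
  | [] => []
  | t :: l => s.mul t :: mul1 s l

def mulT : List Tm → List Tm → List Tm
  | [], _ => []
  | s :: l, T => mul1 s T ++ mulT l T

def okT (T : List Tm) : Prop := ∀ t ∈ T, 1 ≤ t.c

theorem okT_mul1 (s : Tm) (T : List Tm) (hT : okT T) : okT (mul1 s T) := by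
  induction T with
  | nil => intro t ht; simp [mul1] at ht
  | cons t l ih =>
    intro u hu
    rw [mul1] at hu
    rcases List.mem_cons.1 hu with rfl | hu
    · exact cat_pos _ _ (hT t (by simp))
    · exact ih (fun t ht => hT t (List.mem_cons_of_mem _ ht)) u hu

theorem okT_append {S T : List Tm} (hS : okT S) (hT : okT T) : okT (S ++ T) := by
  intro t ht
  rcases List.mem_append.1 ht with h | h
  · exact hS t h
  · exact hT t h

theorem okT_mulT (S T : List Tm) (hT : okT T) : okT (mulT S T) := by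
  induction S with
  | nil => intro t ht; simp [mulT] at ht
  | cons s l ih => rw [mulT]; exact okT_append (okT_mul1 s T hT) ih

theorem evT_append (p q : R) (i j : ℕ) (S T : List Tm) :
    evT p q i j (S ++ T) = evT p q i j S + evT p q i j T := by simp [evT]

theorem evT_mul1 (p q : R) (i j : ℕ) (s : Tm) (hs : 1 ≤ s.c) (T : List Tm) (hT : okT T) :
    evT p q i j (mul1 s T) = ((s.a * i ^ s.e * j ^ s.f) • wv p q s.c) * evT p q i j T := by
  induction T with
  | nil => simp [mul1, evT]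
  | cons t l ih =>
    have h1 := ih (fun t ht => hT t (List.mem_cons_of_mem _ ht))
    have ht : 1 ≤ t.c := hT t (by simp)
    have e1 : evT p q i j (mul1 s (t :: l))
        = ((s.mul t).a * i ^ (s.mul t).e * j ^ (s.mul t).f) • wv p q (s.mul t).c
          + evT p q i j (mul1 s l) := by simp [mul1, evT]
    have e2 : evT p q i j (t :: l) = (t.a * i ^ t.e * j ^ t.f) • wv p q t.c + evT p q i j l := by
      simp [evT]
    rw [e1, e2, h1, mul_add]
    congr 1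
    simp only [Tm.mul, Nat.mul_eq, Nat.add_eq]
    rw [wv_catc p q _ _ hs ht, smul_mul_smul_comm]
    congr 1
    rw [pow_add, pow_add]; ring

theorem evT_mulT (p q : R) (i j : ℕ) (S T : List Tm) (hS : okT S) (hT : okT T) :
    evT p q i j (mulT S T) = evT p q i j S * evT p q i j T := by
  induction S with
  | nil => simp [mulT, evT]
  | cons s l ih =>
    have h1 := ih (fun t ht => hS t (List.mem_cons_of_mem _ ht))
    have e2 : evT p q i j (s :: l) = (s.a * i ^ s.e * j ^ s.f) • wv p q s.c + evT p q i j l := by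
      simp [evT]
    rw [mulT, evT_append, h1, evT_mul1 p q i j s (hS s (by simp)) T hT, e2, add_mul]

/-! ### interpolation -/

/-- `∑_{i < 5} i ^ (4 - d + e)` modulo five -/
def sm (d e : ℕ) : ℕ :=
  Nat.mod (Nat.add (Nat.pow 0 (Nat.add (Nat.sub 4 d) e)) (Nat.add 1 (Nat.add
    (Nat.pow 2 (Nat.add (Nat.sub 4 d) e)) (Nat.add (Nat.pow 3 (Nat.add (Nat.sub 4 d) e))
      (Nat.pow 4 (Nat.add (Nat.sub 4 d) e)))))) 5

theorem sm_eq (d e : ℕ) : sm d e = (∑ i ∈ Finset.range 5, i ^ (4 - d + e)) % 5 := by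
  have h : ∀ a b : ℕ, Nat.pow a b = a ^ b := fun _ _ => rfl
  simp only [sm, Finset.sum_range_succ, Finset.sum_range_zero, h, Nat.add_eq, Nat.sub_eq, one_pow]
  congr 1
  ring

/-- the coefficient of the class `(d₁, d₂)` -/
def co (d₁ d₂ : ℕ) (t : Tm) : ℕ := Nat.mod (Nat.mul t.a (Nat.mul (sm d₁ t.e) (sm d₂ t.f))) 5

/-- the relation of the class `(d₁, d₂)` -/
def raw (d₁ d₂ : ℕ) : List Tm → List ℕ
  | [] => []
  | t :: T => bif Nat.beq (co d₁ d₂ t) 0 then raw d₁ d₂ T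
      else Nat.add (Nat.mul 8 t.c) (co d₁ d₂ t) :: raw d₁ d₂ T

theorem ev_raw (p q : R) (h5 : (5 : R) = 0) (d₁ d₂ : ℕ) (T : List Tm) :
    ev p q (raw d₁ d₂ T) = ∑ i ∈ Finset.range 5, ∑ j ∈ Finset.range 5,
      (i ^ (4 - d₁) * j ^ (4 - d₂)) • evT p q i j T := by
  have h5' : ∀ m : R, 5 • m = 0 := by
    intro m
    have : (5 : ℕ) • m = (5 : R) * m := by rw [nsmul_eq_mul]; norm_num
    rw [this, h5, zero_mul]
  have hmod : ∀ (n : ℕ) (m : R), (n % 5) • m = n • m := by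
    intro n m
    conv_rhs => rw [← Nat.mod_add_div n 5]
    rw [add_smul, mul_smul, h5', add_zero]
  induction T with
  | nil => simp [raw, ev, evT]
  | cons t T ih =>
    have hco : co d₁ d₂ t • wv p q t.c = ∑ i ∈ Finset.range 5, ∑ j ∈ Finset.range 5,
        (i ^ (4 - d₁) * j ^ (4 - d₂)) • ((t.a * i ^ t.e * j ^ t.f) • wv p q t.c) := by
      have e : ∀ i j : ℕ, (i ^ (4 - d₁) * j ^ (4 - d₂)) • ((t.a * i ^ t.e * j ^ t.f) • wv p q t.c)
          = (t.a * (i ^ (4 - d₁ + t.e) * j ^ (4 - d₂ + t.f))) • wv p q t.c := by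
        intro i j
        rw [← mul_smul]; congr 1
        rw [pow_add, pow_add]; ring
      simp only [e, ← Finset.sum_smul]
      have h : co d₁ d₂ t = (t.a * (sm d₁ t.e * sm d₂ t.f)) % 5 := rfl
      rw [h, hmod]
      have e2 : ∑ i ∈ Finset.range 5, ∑ j ∈ Finset.range 5,
          t.a * (i ^ (4 - d₁ + t.e) * j ^ (4 - d₂ + t.f))
          = t.a * ((∑ i ∈ Finset.range 5, i ^ (4 - d₁ + t.e))
            * ∑ j ∈ Finset.range 5, j ^ (4 - d₂ + t.f)) := by
        rw [Finset.sum_mul_sum, Finset.mul_sum]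
        simp only [Finset.mul_sum]
      rw [e2, sm_eq, sm_eq, ← hmod, ← hmod (t.a * ((∑ i ∈ Finset.range 5, i ^ (4 - d₁ + t.e)) * _))]
      congr 1
      rw [Nat.mul_mod t.a, Nat.mul_mod t.a (_ * _)]
      congr 2
      rw [Nat.mul_mod, Nat.mod_mod, Nat.mod_mod, ← Nat.mul_mod]
    have hE : ∀ i j : ℕ, evT p q i j (t :: T)
        = (t.a * i ^ t.e * j ^ t.f) • wv p q t.c + evT p q i j T := by
      intro i j; simp [evT]
    simp only [hE, smul_add, Finset.sum_add_distrib]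
    rw [← hco, ← ih, raw]
    have hlt : co d₁ d₂ t < 5 := Nat.mod_lt _ (by norm_num)
    cases hb : Nat.beq (co d₁ d₂ t) 0 with
    | true =>
      rw [Nat.eq_of_beq_eq_true hb]
      simp
    | false =>
      simp only [cond_false]
      generalize co d₁ d₂ t = c at *
      have e : ∀ l : List ℕ, ev p q (Nat.add (Nat.mul 8 t.c) c :: l)
          = ((8 * t.c + c) % 8) • wv p q ((8 * t.c + c) / 8) + ev p q l := by
        intro l; simp [ev]
      rw [e]
      congr 1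
      have e1 : (8 * t.c + c) % 8 = c := by omega
      have e2 : (8 * t.c + c) / 8 = t.c := by omega
      rw [e1, e2]

/-! ### the expansion -/

def Ep : List Tm := [⟨1, 0, 0, 1⟩, ⟨1, 1, 0, 3⟩, ⟨3, 2, 0, 7⟩, ⟨1, 3, 0, 15⟩]
def Eq' : List Tm := [⟨1, 0, 0, 1⟩, ⟨1, 0, 1, 2⟩, ⟨3, 0, 2, 4⟩, ⟨1, 0, 3, 8⟩]
def Fp : List Tm := [⟨1, 0, 0, 1⟩, ⟨4, 1, 0, 3⟩, ⟨3, 2, 0, 7⟩, ⟨4, 3, 0, 15⟩]
def Fq : List Tm := [⟨1, 0, 0, 1⟩, ⟨4, 0, 1, 2⟩, ⟨3, 0, 2, 4⟩, ⟨4, 0, 3, 8⟩]

/-- the expansion of `1 + W + W ^ 2 + W' + W' ^ 2` -/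
def TT : List Tm :=
  ⟨1, 0, 0, 1⟩ :: (mulT Ep Eq' ++ (mulT Fq Fp ++
    (mulT (mulT Ep Eq') (mulT Ep Eq') ++ mulT (mulT Fq Fp) (mulT Fq Fp))))

theorem okT_Ep : okT Ep := by
  intro t ht; simp only [Ep, List.mem_cons, List.not_mem_nil, or_false] at ht
  rcases ht with rfl | rfl | rfl | rfl <;> simp
theorem okT_Eq : okT Eq' := by
  intro t ht; simp only [Eq', List.mem_cons, List.not_mem_nil, or_false] at ht
  rcases ht with rfl | rfl | rfl | rfl <;> simp
theorem okT_Fp : okT Fp := by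
  intro t ht; simp only [Fp, List.mem_cons, List.not_mem_nil, or_false] at ht
  rcases ht with rfl | rfl | rfl | rfl <;> simp
theorem okT_Fq : okT Fq := by
  intro t ht; simp only [Fq, List.mem_cons, List.not_mem_nil, or_false] at ht
  rcases ht with rfl | rfl | rfl | rfl <;> simp

/-- the exponential -/
def ee (i : ℕ) (x : R) : R := 1 + i • x + (3 * i ^ 2) • x ^ 2 + (i ^ 3) • x ^ 3
/-- its inverse -/
def ff (i : ℕ) (x : R) : R := 1 + (4 * i) • x + (3 * i ^ 2) • x ^ 2 + (4 * i ^ 3) • x ^ 3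

theorem wv_p1 (p q : R) : wv p q 3 = p := by
  rw [show 3 = 2 * 1 + 1 by norm_num, wv_odd p q le_rfl, wv_one, one_mul]
theorem wv_p2 (p q : R) : wv p q 7 = p ^ 2 := by
  rw [show 7 = 2 * 3 + 1 by norm_num, wv_odd p q (by norm_num), wv_p1, pow_two]
theorem wv_p3 (p q : R) : wv p q 15 = p ^ 3 := by
  rw [show 15 = 2 * 7 + 1 by norm_num, wv_odd p q (by norm_num), wv_p2, pow_succ p 2]
theorem wv_p4 (p q : R) : wv p q 31 = p ^ 4 := by
  rw [show 31 = 2 * 15 + 1 by norm_num, wv_odd p q (by norm_num), wv_p3, pow_succ p 3]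
theorem wv_q1 (p q : R) : wv p q 2 = q := by
  rw [show 2 = 2 * 1 by norm_num, wv_even p q le_rfl, wv_one, one_mul]
theorem wv_q2 (p q : R) : wv p q 4 = q ^ 2 := by
  rw [show 4 = 2 * 2 by norm_num, wv_even p q (by norm_num), wv_q1, pow_two]
theorem wv_q3 (p q : R) : wv p q 8 = q ^ 3 := by
  rw [show 8 = 2 * 4 by norm_num, wv_even p q (by norm_num), wv_q2, pow_succ q 2]
theorem wv_q4 (p q : R) : wv p q 16 = q ^ 4 := by
  rw [show 16 = 2 * 8 by norm_num, wv_even p q (by norm_num), wv_q3, pow_succ q 3]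

theorem ev_Ep (p q : R) (i j : ℕ) : evT p q i j Ep = ee i p := by
  simp [evT, Ep, ee, wv_one, wv_p1, wv_p2, wv_p3, add_assoc]
theorem ev_Eq (p q : R) (i j : ℕ) : evT p q i j Eq' = ee j q := by
  simp [evT, Eq', ee, wv_one, wv_q1, wv_q2, wv_q3, add_assoc]
theorem ev_Fp (p q : R) (i j : ℕ) : evT p q i j Fp = ff i p := by
  simp [evT, Fp, ff, wv_one, wv_p1, wv_p2, wv_p3, add_assoc]
theorem ev_Fq (p q : R) (i j : ℕ) : evT p q i j Fq = ff j q := by
  simp [evT, Fq, ff, wv_one, wv_q1, wv_q2, wv_q3, add_assoc]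

theorem ev_TT (p q : R) (i j : ℕ) : evT p q i j TT
    = 1 + (ee i p * ee j q + (ff j q * ff i p + (ee i p * ee j q * (ee i p * ee j q)
      + ff j q * ff i p * (ff j q * ff i p)))) := by
  have h1 := okT_mulT Ep Eq' okT_Eq
  have h2 := okT_mulT Fq Fp okT_Fp
  have e : evT p q i j TT = evT p q i j [⟨1, 0, 0, 1⟩] + evT p q i j (mulT Ep Eq' ++ (mulT Fq Fp ++
    (mulT (mulT Ep Eq') (mulT Ep Eq') ++ mulT (mulT Fq Fp) (mulT Fq Fp)))) := by
    rw [← evT_append]; rfl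
  rw [e, evT_append, evT_append, evT_append, evT_mulT p q i j _ _ h1 h1, evT_mulT p q i j _ _ h2 h2,
    evT_mulT p q i j _ _ okT_Ep okT_Eq, evT_mulT p q i j _ _ okT_Fq okT_Fp, ev_Ep, ev_Eq, ev_Fp,
    ev_Fq]
  simp [evT, wv_one]

/-- the input relations vanish -/
theorem raw_zero (p q : R) (h5 : (5 : R) = 0)
    (hN : ∀ i < 5, ∀ j < 5, 1 + (ee i p * ee j q + (ff j q * ff i p
      + (ee i p * ee j q * (ee i p * ee j q) + ff j q * ff i p * (ff j q * ff i p)))) = (0 : R))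
    (d₁ d₂ : ℕ) : ev p q (raw d₁ d₂ TT) = 0 := by
  rw [ev_raw p q h5]
  refine Finset.sum_eq_zero fun i hi => Finset.sum_eq_zero fun j hj => ?_
  rw [ev_TT, hN i (Finset.mem_range.1 hi) j (Finset.mem_range.1 hj), smul_zero]

end Pool.Agent.Work.MP_d7201b_al.LN4
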