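import Mathlib
import Pool.Agent.Work.MP_d7201b_al_helper4.Inputs

/-!
# The derivation checker
-/

set_option autoImplicit false

namespace Pool.Agent.Work.MP_d7201b_al.LN4

variable {R : Type*} [Ring R]

/-- a table -/
inductive ET where
  | L (p : List ℕ)
  | N (l r : ET)

/-- look-up by the binary digits -/
def get : ET → ℕ → List ℕ
  | .L p, _ => p
  | .N l r, j => bif Nat.beq (Nat.land j 1) 0 then get l (Nat.shiftRight j 1)
      else get r (Nat.shiftRight j 1)

/-- the mask in closed form -/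
def mkOf (B n : ℕ) : ℕ := (2 ^ (B - 3) - 1) * ((2 ^ (B * n) - 1) / (2 ^ B - 1))

theorem mkOf_eq (B n : ℕ) (hB : 0 < B) : mkOf B n = mask B n := (mask_eq hB).symm

/-- the mask for `8192` digits of length `16` -/
def mk : ℕ := mkOf 16 8192

theorem mk_eq : mk = mask 16 8192 := mkOf_eq 16 8192 (by norm_num)

/-- the extra terms -/
def xtr (d₁ d₂ : ℕ) : List ℕ := bif Nat.beq d₁ 0 then [] else raw d₁ d₂ TT

/-- the check of consecutive elements -/
def chkAll (E : ℕ → List ℕ) : ℕ → List (ℕ × ℕ × List (ℕ × List ℕ)) → Bool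
  | _, [] => true
  | k, x :: l => (chk 16 mk E k (xtr x.1 x.2.1) x.2.2).and (chkAll E (Nat.add k 1) l)

theorem chkAll_sound (p q : R) (h5 : (5 : R) = 0)
    (hraw : ∀ d₁ d₂ : ℕ, ev p q (raw d₁ d₂ TT) = 0) (E : ℕ → List ℕ) (k : ℕ)
    (l : List (ℕ × ℕ × List (ℕ × List ℕ))) (h : chkAll E k l = true)
    (hE : ∀ j < k, Good p q E j) : ∀ j < k + l.length, Good p q E j := by
  induction l generalizing k with
  | nil => simpa using hE
  | cons x l ih =>
    rw [chkAll, Bool.and_eq_true] at h
    have hx : ev p q (xtr x.1 x.2.1) = 0 := by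
      unfold xtr
      cases Nat.beq x.1 0
      · exact hraw _ _
      · rfl
    have hk := chk_sound p q h5 16 8192 (by norm_num) mk mk_eq E k _ hx _ hE h.1
    have h2 := ih (k + 1) h.2 (by
      intro j hj
      rcases Nat.lt_succ_iff_lt_or_eq.1 hj with h3 | h3
      · exact hE j h3
      · rw [h3]; exact hk)
    intro j hj
    apply h2
    rw [List.length_cons] at hj
    omega

end Pool.Agent.Work.MP_d7201b_al.LN4
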